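import Pool.Agent.Lib.MP_4da9c2_lc.Cross

namespace Pool.Agent.Lib.MP_4da9c2_lc

open Finset

variable (s : State)

lemma band_visits (g : ℤ × ℤ → ℝ) (σ : ℤ) (hσ : σ = 1 ∨ σ = -1)
    (hx : ∀ x y, g (x, y) + 1 ≤ g (x + 1, y)) (hy : ∀ x y, g (x, y) + 1 ≤ g (x, y + σ))
    (T : ℕ) (lo : ℝ) (n : ℕ) (H : ∀ t < T, lo ≤ g (st s t).pos ∧ g (st s t).pos < lo + n)
    (q : ℤ × ℤ) : V s T q ≤ 4 * 3 ^ n := by
  have out : ∀ q, (g q < lo ∨ lo + n ≤ g q) → V s T q = 0 := by
    intro q hq
    refine sum_eq_zero fun t ht => ?_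
    rw [if_neg]
    rintro rfl
    have := H t (mem_range.1 ht)
    rcases hq with h | h <;> linarith [this.1, this.2]
  have C := fun x y => cell s T x y _ _ _ _ rfl rfl rfl rfl
  have key : ∀ m : ℕ, ∀ x y, g (x, y) < lo + m → hor s T (x + 1) y + 1 ≤ 2 * 3 ^ m := by
    rcases hσ with rfl | rfl
    · have : ∀ m : ℕ, ∀ x y, g (x, y) < lo + m →
          hor s T (x + 1) y + 1 ≤ 2 * 3 ^ m ∧ ver s T x (y + 1) + 1 ≤ 2 * 3 ^ m := by
        intro m
        induction m with
        | zero =>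
          intro x y h
          have h1 := out (x, y) (Or.inl (by simpa using h))
          have h2 := (C x y).2.2.2
          omega
        | succ m ih =>
          intro x y h
          have a := hx (x - 1) y
          have b := hy x (y - 1)
          rw [sub_add_cancel] at a b
          push_cast at h
          have a' := (ih (x - 1) y (by linarith)).1
          have b' := (ih x (y - 1) (by linarith)).2
          rw [sub_add_cancel] at a' b'
          have h2 := (C x y).1.1
          have h3 := (C x y).2.1.1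
          rw [pow_succ]
          omega
      exact fun m x y h => (this m x y h).1
    · have : ∀ m : ℕ, ∀ x y, g (x, y) < lo + m →
          hor s T (x + 1) y + 1 ≤ 2 * 3 ^ m ∧ ver s T x y + 1 ≤ 2 * 3 ^ m := by
        intro m
        induction m with
        | zero =>
          intro x y h
          have h1 := out (x, y) (Or.inl (by simpa using h))
          have h2 := (C x y).2.2.2
          omega
        | succ m ih =>
          intro x y h
          have a := hx (x - 1) y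
          have b := hy x (y + 1)
          rw [sub_add_cancel] at a
          rw [add_neg_cancel_right] at b
          push_cast at h
          have a' := (ih (x - 1) y (by linarith)).1
          have b' := (ih x (y + 1) (by linarith)).2
          rw [sub_add_cancel] at a'
          have h2 := (C x y).1.2.1
          have h3 := (C x y).2.1.2.2.1
          rw [pow_succ]
          omega
      exact fun m x y h => (this m x y h).1
  obtain ⟨x, y⟩ := q
  by_cases h : g (x, y) < lo + n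
  · have a := hx (x - 1) y
    rw [sub_add_cancel] at a
    have h1 := key n x y h
    have h2 := key n (x - 1) y (by linarith)
    rw [sub_add_cancel] at h2
    have h3 := (C x y).2.2.1
    omega
  · rw [out _ (Or.inr (not_lt.1 h))]
    exact Nat.zero_le _

lemma col_gap (g : ℤ × ℤ → ℝ) (σ : ℤ) (hσ : σ = 1 ∨ σ = -1)
    (hy : ∀ x y, g (x, y) + 1 ≤ g (x, y + σ)) (lo : ℝ) (n : ℕ) (x y y' : ℤ)
    (h : lo ≤ g (x, y) ∧ g (x, y) < lo + n) (h' : lo ≤ g (x, y') ∧ g (x, y') < lo + n) :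
    y' - y ∈ Icc (-(n : ℤ)) n := by
  have mono : ∀ (k : ℕ) (y : ℤ), g (x, y) + k ≤ g (x, y + σ * k) := by
    intro k y
    induction k with
    | zero => simp
    | succ k ih =>
      have := hy x (y + σ * k)
      push_cast
      rw [mul_add, mul_one, ← add_assoc y]
      linarith
  have key : ∀ y y' : ℤ, lo ≤ g (x, y) → g (x, y') < lo + n → σ * (y' - y) ≤ n := by
    intro y y' a b
    by_contra hc
    have e : y + σ * ((σ * (y' - y)).toNat : ℤ) = y' := by
      rw [Int.toNat_of_nonneg (by omega)]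
      rcases hσ with rfl | rfl <;> ring
    have := mono (σ * (y' - y)).toNat y
    rw [e] at this
    have h2 : (n : ℝ) ≤ ((σ * (y' - y)).toNat : ℝ) := by exact_mod_cast (by omega)
    linarith
  have a := key y y' h.1 h'.2
  have b := key y' y h'.1 h.2
  rw [mem_Icc]
  rcases hσ with rfl | rfl <;> omega

lemma col_count (g : ℤ × ℤ → ℝ) (σ : ℤ) (hσ : σ = 1 ∨ σ = -1)
    (hx : ∀ x y, g (x, y) + 1 ≤ g (x + 1, y)) (hy : ∀ x y, g (x, y) + 1 ≤ g (x, y + σ))
    (T : ℕ) (lo : ℝ) (n : ℕ) (H : ∀ t < T, lo ≤ g (st s t).pos ∧ g (st s t).pos < lo + n)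
    (x : ℤ) : Finset.card {t ∈ range T | (st s t).pos.1 = x} ≤ (2 * n + 1) * (4 * 3 ^ n) := by
  rcases ({t ∈ range T | (st s t).pos.1 = x} : Finset ℕ).eq_empty_or_nonempty with h | ⟨t0, ht0⟩
  · rw [h]; simp
  obtain ⟨h1, h2⟩ := mem_filter.1 ht0
  have := card_le_mul_card_image_of_maps_to
    (f := fun t => (st s t).pos.2 - (st s t0).pos.2) (s := {t ∈ range T | (st s t).pos.1 = x})
    (t := Icc (-(n : ℤ)) n) (fun t ht => by
      obtain ⟨a, b⟩ := mem_filter.1 ht
      refine col_gap g σ hσ hy lo n x _ _ ?_ ?_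
      · rw [← h2]; exact H t0 (mem_range.1 h1)
      · rw [← b]; exact H t (mem_range.1 a)) (4 * 3 ^ n) (fun b _ => by
      refine le_trans ?_ (band_visits s g σ hσ hx hy T lo n H (x, b + (st s t0).pos.2))
      unfold V
      rw [← card_filter]
      refine card_le_card fun t ht => ?_
      simp only [mem_filter] at ht ⊢
      refine ⟨ht.1.1, Prod.ext ht.1.2 ?_⟩
      have := ht.2
      simp only
      omega)
  rw [Int.card_Icc] at this
  rw [mul_comm]
  refine this.trans (Nat.mul_le_mul_left _ ?_)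
  omega

theorem band (g : ℤ × ℤ → ℝ) (σ : ℤ) (hσ : σ = 1 ∨ σ = -1)
    (hx : ∀ x y, g (x, y) + 1 ≤ g (x + 1, y)) (hy : ∀ x y, g (x, y) + 1 ≤ g (x, y + σ))
    (T : ℕ) (lo : ℝ) (n : ℕ) (H : ∀ t < T, lo ≤ g (st s t).pos ∧ g (st s t).pos < lo + n)
    (R : ℕ) (hR : |s.pos.1| ≤ R) (hb : ∀ q : ℤ × ℤ, s.black q = true → |q.1| ≤ R)
    (K : ℕ) (hK : K = (2 * n + 1) * (4 * 3 ^ n))
    (hT : (2 * (R + (2 * n + 2) ^ K) + 1) * K < T) : Hw s := by
  set M := (2 * n + 2) ^ K with hM
  have col := col_count s g σ hσ hx hy T lo n H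
  rw [← hK] at col
  obtain ⟨T0, hT0, far⟩ : ∃ T0 < T, (R : ℤ) + M < |(st s T0).pos.1| := by
    by_contra hc
    push Not at hc
    have := card_le_mul_card_image_of_maps_to (f := fun t => (st s t).pos.1) (s := range T)
      (t := Icc (-((R : ℤ) + M)) (R + M))
      (fun t ht => mem_Icc.2 (abs_le.1 (hc t (mem_range.1 ht)))) K (fun b _ => col b)
    rw [card_range, Int.card_Icc, mul_comm] at this
    have e : ((R : ℤ) + M + 1 - -((R : ℤ) + M)).toNat = 2 * (R + M) + 1 := by omega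
    rw [e] at this
    omega
  obtain ⟨ε, hε, far'⟩ : ∃ ε : ℤ, (ε = 1 ∨ ε = -1) ∧ (R : ℤ) + M < ε * (st s T0).pos.1 := by
    rcases lt_abs.1 far with h | h
    · exact ⟨1, Or.inl rfl, by omega⟩
    · exact ⟨-1, Or.inr rfl, by omega⟩
  have absle : ∀ z : ℤ, |z| ≤ R → ε * z ≤ R := fun z hz => by
    have := abs_le.1 hz
    rcases hε with rfl | rfl <;> omega
  have cnt : ∀ c, Nat.count (ent s ε c) T0 ≤ K := fun c => by
    refine le_trans ?_ (col (ε * c))
    rw [Nat.count_eq_card_filter_range]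
    refine card_le_card_of_injOn (fun t => t + 1) (fun t ht => ?_) (fun a _ b _ h => by simpa using h)
    simp only [coe_filter, mem_range, Set.mem_ofPred_eq] at ht ⊢
    have := (ent_pos s ε c hε t ht.2).1
    refine ⟨by omega, ?_⟩
    rcases hε with rfl | rfl <;> omega
  have px : ∀ c j, j < Nat.count (ent s ε c) T0 →
      ε * (st s (Nat.nth (ent s ε c) j + 1)).pos.1 = c := fun c j hj =>
    (ent_pos s ε c hε _ (Nat.nth_mem j (nth_ok s ε c T0 j hj))).1
  have py : ∀ c j, j < Nat.count (ent s ε c) T0 →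
      (st s (Nat.nth (ent s ε c) j + 1)).pos.2 - (st s (Nat.nth (ent s ε c) 0 + 1)).pos.2
        ∈ Icc (-(n : ℤ)) n := fun c j hj => by
    have a := px c j hj
    have b := px c 0 (by omega)
    have a' := Nat.nth_lt_of_lt_count hj
    have b' := Nat.nth_lt_of_lt_count (show 0 < Nat.count (ent s ε c) T0 by omega)
    refine col_gap g σ hσ hy lo n (ε * c) _ _ ?_ ?_
    · have := H (Nat.nth (ent s ε c) 0 + 1) (by omega)
      rwa [show ε * c = (st s (Nat.nth (ent s ε c) 0 + 1)).pos.1 by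
        rcases hε with rfl | rfl <;> omega]
    · have := H (Nat.nth (ent s ε c) j + 1) (by omega)
      rwa [show ε * c = (st s (Nat.nth (ent s ε c) j + 1)).pos.1 by
        rcases hε with rfl | rfl <;> omega]
  let code : ℤ → Fin K → ℤ := fun c j =>
    if (j : ℕ) < Nat.count (ent s ε c) T0 then
      (st s (Nat.nth (ent s ε c) j + 1)).pos.2 - (st s (Nat.nth (ent s ε c) 0 + 1)).pos.2
    else n + 1
  obtain ⟨c1, h1, c2, h2, hne, heq⟩ := exists_ne_map_eq_of_card_lt_of_maps_to
    (s := Icc ((R : ℤ) + 1) (R + M + 1))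
    (t := Fintype.piFinset fun _ : Fin K => Icc (-(n : ℤ)) (n + 1)) (f := code)
    (by
      rw [Fintype.card_piFinset, prod_const, card_univ, Fintype.card_fin, Int.card_Icc, Int.card_Icc,
        show ((n : ℤ) + 1 + 1 - -(n : ℤ)).toNat = 2 * n + 2 by omega, ← hM]
      omega)
    (fun c _ => by
      simp only [Fintype.coe_piFinset, Set.mem_pi, Set.mem_univ, true_imp_iff, mem_coe, code]
      intro j
      split_ifs with h
      · have := mem_Icc.1 (py c j h)
        exact mem_Icc.2 ⟨this.1, by omega⟩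
      · exact mem_Icc.2 ⟨by omega, le_rfl⟩)
  wlog hlt : c1 < c2 generalizing c1 c2
  · exact this c2 h2 c1 h1 hne.symm heq.symm (by omega)
  rw [mem_Icc] at h1 h2
  have same : ∀ c c', code c = code c' →
      ¬ Nat.count (ent s ε c) T0 < Nat.count (ent s ε c') T0 := fun c c' h hl => by
    have e := congrFun h ⟨Nat.count (ent s ε c) T0, hl.trans_le (cnt c')⟩
    simp only [code, lt_irrefl, if_false, hl, if_true] at e
    have := mem_Icc.1 (py c' _ hl)
    omega
  have hk : Nat.count (ent s ε c1) T0 = Nat.count (ent s ε c2) T0 := by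
    have := same c1 c2 heq
    have := same c2 c1 heq.symm
    omega
  have h0 : ¬ ins s ε c1 0 := by
    have := absle _ hR
    change ¬ c1 ≤ ε * s.pos.1
    omega
  have hT2 : ins s ε c2 T0 := by
    unfold ins
    omega
  have pos := count_pos s ε c1 h0 T0 (hlt.le.trans hT2)
  have a1 := px c1 0 pos
  have a2 := px c2 0 (by omega)
  refine cross s ε c1 c2 hε
    ((st s (Nat.nth (ent s ε c2) 0 + 1)).pos - (st s (Nat.nth (ent s ε c1) 0 + 1)).pos)
    (by rw [Prod.fst_sub, mul_sub, a1, a2]) hlt h0 (fun q hq => ?_) T0 hT2 hk fun j hj => ?_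
  · by_contra hc
    have := absle _ (hb q (by simpa using hc))
    omega
  · have e := congrFun heq ⟨j, hj.trans_le (cnt c1)⟩
    simp only [code, hj, if_true, hk ▸ hj] at e
    have b1 := px c1 j hj
    have b2 := px c2 j (by omega)
    refine Prod.ext ?_ ?_
    · simp only [Prod.fst_add, Prod.fst_sub]
      rcases hε with rfl | rfl <;> omega
    · simp only [Prod.snd_add, Prod.snd_sub]
      omega

lemma nat_bound (R n : ℕ) (h1 : 30 ≤ n) (h2 : R + 5 ≤ n) :
    7 * (2 * R + 3 + (n + 2) * ((2 * n + 1) * (4 * 3 ^ n))) ≤ 7 ^ n := by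
  have a : ∀ m, 8 ≤ m → (m + 2) * (2 * m + 1) ≤ 2 ^ m := by
    intro m hm
    induction m, hm using Nat.le_induction with
    | base => norm_num
    | succ m hm ih => rw [pow_succ]; nlinarith
  have b : ∀ m, 30 ≤ m → 57 * 6 ^ m ≤ 7 ^ m := by
    intro m hm
    induction m, hm using Nat.le_induction with
    | base => norm_num
    | succ m hm ih => rw [pow_succ, pow_succ]; omega
  have c : ∀ m, 14 * m ≤ 6 ^ m + 14 := by
    intro m
    induction m with
    | zero => norm_num
    | succ m ih =>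
      rcases m with _ | m
      · norm_num
      · have : 6 ≤ 6 ^ (m + 1) := Nat.le_self_pow (by omega) 6
        rw [pow_succ]; omega
  have d : (n + 2) * ((2 * n + 1) * (4 * 3 ^ n)) ≤ 4 * 6 ^ n := by
    calc _ = 4 * (((n + 2) * (2 * n + 1)) * 3 ^ n) := by ring
      _ ≤ 4 * (2 ^ n * 3 ^ n) := by gcongr; exact a n (by omega)
      _ = _ := by rw [← mul_pow]; norm_num
  have := b n h1
  have := c n
  omega

lemma real_bound (R n K : ℕ) (h1 : 30 ≤ n) (h2 : R + 5 ≤ n) (hK : K = (2 * n + 1) * (4 * 3 ^ n)) :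
    (((2 * (R + (2 * n + 2) ^ K) + 1) * K : ℕ) : ℝ) ≤ Real.exp (Real.exp (2 * ((n : ℝ) - 1))) := by
  have le : ∀ m : ℕ, (m : ℝ) ≤ Real.exp m := fun m => by linarith [Real.add_one_le_exp (m : ℝ)]
  have a : ((2 * n + 2 : ℕ) : ℝ) ≤ Real.exp ((n : ℝ) + 1) := by
    have := Real.two_mul_le_exp (x := (n : ℝ) + 1)
    push_cast
    linarith
  have b : (((2 * n + 2) ^ K : ℕ) : ℝ) ≤ Real.exp (K * ((n : ℝ) + 1)) := by
    rw [Real.exp_nat_mul, Nat.cast_pow]
    gcongr
  have c : 2 * (R + (2 * n + 2) ^ K) + 1 ≤ (2 * R + 3) * (2 * n + 2) ^ K := by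
    have : 1 ≤ (2 * n + 2) ^ K := Nat.one_le_pow _ _ (by omega)
    nlinarith
  have d : ((2 * R + 3 + (n + 2) * K : ℕ) : ℝ) ≤ Real.exp (2 * ((n : ℝ) - 1)) := by
    have e1 := nat_bound R n h1 h2
    rw [← hK] at e1
    obtain ⟨m, rfl⟩ : ∃ m, n = m + 1 := ⟨n - 1, by omega⟩
    have e2 : 2 * R + 3 + (m + 1 + 2) * K ≤ 7 ^ m := by rw [pow_succ] at e1; omega
    have e3 : (7 : ℝ) ≤ Real.exp 2 := by
      have := Real.exp_one_gt_d9
      rw [show (2 : ℝ) = 1 + 1 by norm_num, Real.exp_add]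
      nlinarith
    calc _ ≤ ((7 ^ m : ℕ) : ℝ) := by exact_mod_cast e2
      _ ≤ Real.exp 2 ^ m := by push_cast; gcongr
      _ = _ := by rw [← Real.exp_nat_mul]; congr 1; push_cast; ring
  calc _ ≤ (((2 * R + 3) * (2 * n + 2) ^ K * K : ℕ) : ℝ) := by
        exact_mod_cast Nat.mul_le_mul_right _ c
    _ = ((2 * R + 3 : ℕ) : ℝ) * (((2 * n + 2) ^ K : ℕ) : ℝ) * (K : ℝ) := by push_cast; ring
    _ ≤ Real.exp ((2 * R + 3 : ℕ) : ℝ) * Real.exp (K * ((n : ℝ) + 1)) * Real.exp K := by
        gcongr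
        · exact le _
        · exact le _
    _ = Real.exp ((2 * R + 3 + (n + 2) * K : ℕ) : ℝ) := by
        rw [← Real.exp_add, ← Real.exp_add]; congr 1; push_cast; ring
    _ ≤ _ := Real.exp_le_exp.2 d

theorem spread (hs : {q | s.black q = true}.Finite) (hn : ¬ Hw s) :
    ∀ᶠ T : ℕ in Filter.atTop, ∀ (g : ℤ × ℤ → ℝ) (σ : ℤ), (σ = 1 ∨ σ = -1) →
      (∀ x y, g (x, y) + 1 ≤ g (x + 1, y)) → (∀ x y, g (x, y) + 1 ≤ g (x, y + σ)) →
      ∃ t < T, ∃ t' < T, Real.log (Real.log T) / 2 ≤ g (st s t).pos - g (st s t').pos := by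
  obtain ⟨R0, hR0⟩ := (hs.image fun q => q.1.natAbs).bddAbove
  set R := max R0 s.pos.1.natAbs with hRdef
  have hR : |s.pos.1| ≤ R := by
    rw [← Int.natCast_natAbs]; exact_mod_cast le_max_right _ _
  have hb : ∀ q : ℤ × ℤ, s.black q = true → |q.1| ≤ R := fun q hq => by
    rw [← Int.natCast_natAbs]
    exact_mod_cast (hR0 ⟨q, hq, rfl⟩).trans (le_max_left _ _)
  have lim : Filter.Tendsto (fun T : ℕ => Real.log (T : ℝ)) Filter.atTop Filter.atTop :=
    Real.tendsto_log_atTop.comp tendsto_natCast_atTop_atTop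
  have lim2 := Real.tendsto_log_atTop.comp lim
  filter_upwards [lim2.eventually_ge_atTop (2 * ((R : ℝ) + 30)), lim.eventually_gt_atTop 0,
    Filter.eventually_gt_atTop 0] with T hT hT1 hT0 g σ hσ hx hy
  by_contra hc
  push Not at hc
  simp only [Function.comp] at hT
  set L := Real.log (Real.log T) / 2 with hL
  obtain ⟨t0, ht0, hmin⟩ := exists_min_image (range T) (fun t => g (st s t).pos) ⟨0, mem_range.2 hT0⟩
  have hn1 : L ≤ ⌈L⌉₊ := Nat.le_ceil L
  have hn2 : (⌈L⌉₊ : ℝ) < L + 1 := Nat.ceil_lt_add_one (by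
    have : (0 : ℝ) ≤ R := Nat.cast_nonneg _
    linarith)
  have hn3 : R + 30 ≤ ⌈L⌉₊ := by
    have : ((R + 30 : ℕ) : ℝ) ≤ ⌈L⌉₊ := by push_cast; linarith
    exact_mod_cast this
  refine hn (band s g σ hσ hx hy T (g (st s t0).pos) ⌈L⌉₊ (fun t ht => ⟨hmin t (mem_range.2 ht), ?_⟩)
    R hR hb _ rfl ?_)
  · have := hc t ht t0 (mem_range.1 ht0)
    linarith
  · have b := real_bound R ⌈L⌉₊ _ (by omega) (by omega) rfl
    have c : Real.exp (Real.exp (2 * ((⌈L⌉₊ : ℝ) - 1))) < T := by
      rw [← Real.lt_log_iff_exp_lt (by exact_mod_cast hT0), ← Real.lt_log_iff_exp_lt hT1]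
      linarith
    exact_mod_cast b.trans_lt c

end Pool.Agent.Lib.MP_4da9c2_lc
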