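import Pool.Agent.Lib.MP_4da9c2_lc.Escape

namespace Pool.Agent.Lib.MP_4da9c2_lc

open Finset

variable (s : State)

lemma pos_succ (t : ℕ) : (st s (t + 1)).pos = (st s t).pos + vec (st s (t + 1)).dir := by
  rw [st_succ]; rfl

lemma black_succ_ne (t : ℕ) (q : ℤ × ℤ) (h : (st s t).pos ≠ q) :
    (st s (t + 1)).black q = (st s t).black q := by
  rw [st_succ]
  exact Function.update_of_ne (Ne.symm h) _ _

lemma vec_bd (ε : ℤ) (hε : ε = 1 ∨ ε = -1) (d : Fin 4) : ε * (vec d).1 ≤ 1 := by
  rcases hε with rfl | rfl <;> fin_cases d <;> simp [vec]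

lemma vec_inj (ε : ℤ) (hε : ε = 1 ∨ ε = -1) (d d' : Fin 4) (h : ε * (vec d).1 = 1)
    (h' : ε * (vec d').1 = 1) : d = d' := by
  rcases hε with rfl | rfl <;> fin_cases d <;> fin_cases d' <;> simp [vec] at h h' ⊢

/-- the ant is in the half plane at time t -/
def ins (ε c : ℤ) (t : ℕ) : Prop := c ≤ ε * (st s t).pos.1

instance (ε c : ℤ) : DecidablePred (ins s ε c) := fun _ => Int.decLe _ _

/-- the ant enters the half plane at step t -/
def ent (ε c : ℤ) (t : ℕ) : Prop := ¬ ins s ε c t ∧ ins s ε c (t + 1)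

instance (ε c : ℤ) : DecidablePred (ent s ε c) := fun _ => instDecidableAnd

lemma step_le (ε : ℤ) (hε : ε = 1 ∨ ε = -1) (t : ℕ) :
    ε * (st s (t + 1)).pos.1 ≤ ε * (st s t).pos.1 + 1 := by
  rw [pos_succ, Prod.fst_add, mul_add]
  have := vec_bd ε hε (st s (t + 1)).dir
  omega

lemma ent_pos (ε c : ℤ) (hε : ε = 1 ∨ ε = -1) (t : ℕ) (h : ent s ε c t) :
    ε * (st s (t + 1)).pos.1 = c ∧ ε * (st s t).pos.1 = c - 1 ∧
      ε * (vec (st s (t + 1)).dir).1 = 1 := by
  obtain ⟨h1, h2⟩ := h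
  unfold ins at h1 h2
  have h3 := step_le s ε hε t
  have h4 : ε * (st s (t + 1)).pos.1 = ε * (st s t).pos.1 + ε * (vec (st s (t + 1)).dir).1 := by
    rw [pos_succ, Prod.fst_add, mul_add]
  omega

lemma quiet (ε c : ℤ) (u : ℕ) (hu : ¬ ins s ε c u) (i : ℕ)
    (h : ∀ t, u ≤ t → t < u + i → ¬ ent s ε c t) :
    ¬ ins s ε c (u + i) ∧
      ∀ q : ℤ × ℤ, c ≤ ε * q.1 → (st s (u + i + 1)).black q = (st s u).black q := by
  induction i with
  | zero =>
    refine ⟨hu, fun q hq => black_succ_ne s u q ?_⟩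
    rintro rfl
    exact hu hq
  | succ i ih =>
    obtain ⟨h1, h2⟩ := ih fun t a b => h t a (by omega)
    have h3 : ¬ ins s ε c (u + (i + 1)) := fun h4 => h (u + i) (by omega) (by omega) ⟨h1, h4⟩
    refine ⟨h3, fun q hq => ?_⟩
    rw [black_succ_ne s (u + (i + 1)) q, ← add_assoc, h2 q hq]
    rintro rfl
    exact h3 hq

/-- the states at times t and t' agree on the half plane, up to translation by v -/
def Agree (ε c : ℤ) (v : ℤ × ℤ) (t t' : ℕ) : Prop :=
  (st s t').pos = (st s t).pos + v ∧ (st s t').dir = (st s t).dir ∧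
    ∀ q : ℤ × ℤ, c ≤ ε * q.1 → (st s t').black (q + v) = (st s t).black q

lemma Agree.turn {ε c : ℤ} {v : ℤ × ℤ} {t t' : ℕ} (h : Agree s ε c v t t') (hi : ins s ε c t) :
    (st s t').black (st s t').pos = (st s t).black (st s t).pos := by
  rw [h.1]; exact h.2.2 _ hi

lemma Agree.succ {ε c : ℤ} {v : ℤ × ℤ} {t t' : ℕ} (h : Agree s ε c v t t') (hi : ins s ε c t) :
    Agree s ε c v (t + 1) (t' + 1) := by
  have ht := h.turn s hi
  obtain ⟨h1, h2, h3⟩ := h
  refine ⟨?_, ?_, fun q hq => ?_⟩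
  · rw [st_succ, st_succ]
    simp only [step]
    rw [ht, h2, h1]
    abel
  · rw [st_succ, st_succ]
    simp only [step]
    rw [ht, h2]
  · rw [st_succ, st_succ]
    simp only [step]
    by_cases hq' : q = (st s t).pos
    · rw [ht, hq', ← h1, Function.update_self, Function.update_self]
    · rw [Function.update_of_ne hq', Function.update_of_ne, h3 q hq]
      rw [h1]
      exact fun h => hq' (add_right_cancel h)

lemma Agree.run {ε c : ℤ} {v : ℤ × ℤ} {t t' : ℕ} (h : Agree s ε c v t t') (i : ℕ)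
    (hi : ∀ j < i, ins s ε c (t + j)) : Agree s ε c v (t + i) (t' + i) := by
  induction i with
  | zero => exact h
  | succ i ih => exact (ih fun j hj => hi j (by omega)).succ s (hi i (by omega))

/-- a highway: eventually periodic turns with a nonzero drift -/
def Hw : Prop :=
  ∃ (t₀ P : ℕ) (v : ℤ × ℤ), 0 < P ∧ v ≠ 0 ∧ ∀ t ≥ t₀,
    (st s (t + P)).black (st s (t + P)).pos = (st s t).black (st s t).pos ∧
      (st s (t + P)).pos = (st s t).pos + v

lemma forever (ε c : ℤ) (v : ℤ × ℤ) (hv : 0 < ε * v.1) (e e' : ℕ) (he : e < e')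
    (h : Agree s ε c v e e') (hi : ∀ t, e ≤ t → t < e' → ins s ε c t) : Hw s := by
  have key : ∀ i, Agree s ε c v (e + i) (e' + i) ∧ ins s ε c (e + i) := by
    intro i
    induction i using Nat.strong_induction_on with
    | _ i ih =>
      refine ⟨h.run s i fun j hj => (ih j hj).2, ?_⟩
      by_cases hlt : e + i < e'
      · exact hi _ (by omega) hlt
      · obtain ⟨h1, h2⟩ := ih (e + i - e') (by omega)
        have h3 := h1.1
        rw [show e' + (e + i - e') = e + i by omega] at h3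
        unfold ins at h2 ⊢
        rw [h3, Prod.fst_add, mul_add]
        omega
  refine ⟨e, e' - e, v, by omega, ?_, fun t ht => ?_⟩
  · rintro rfl
    simp at hv
  · obtain ⟨h1, h2⟩ := key (t - e)
    rw [show e + (t - e) = t by omega] at h1 h2
    rw [show e' + (t - e) = t + (e' - e) by omega] at h1
    exact ⟨h1.turn s h2, h1.1⟩

lemma nth_ok (ε c : ℤ) (T j : ℕ) (hj : j < Nat.count (ent s ε c) T) :
    ∀ hf : (Set.ofPred (ent s ε c)).Finite, j < hf.toFinset.card :=
  fun hf => hj.trans_le (Nat.count_le_card hf T)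

lemma entries (ε c c' : ℤ) (hε : ε = 1 ∨ ε = -1) (v : ℤ × ℤ) (hv : ε * v.1 = c' - c)
    (hc : c ≤ c') (h0 : ¬ ins s ε c 0) (hw : ∀ q : ℤ × ℤ, c ≤ ε * q.1 → s.black q = false)
    (T : ℕ) (k : ℕ) (hk : k ≤ Nat.count (ent s ε c) T) (hk' : k ≤ Nat.count (ent s ε c') T)
    (hp : ∀ j < k, (st s (Nat.nth (ent s ε c') j + 1)).pos
      = (st s (Nat.nth (ent s ε c) j + 1)).pos + v) :
    ∀ j < k, Agree s ε c v (Nat.nth (ent s ε c) j + 1) (Nat.nth (ent s ε c') j + 1) := by
  have h0' : ¬ ins s ε c' 0 := fun h => h0 (hc.trans h)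
  have mem : ∀ j < k, ent s ε c (Nat.nth (ent s ε c) j) := fun j hj =>
    Nat.nth_mem j (nth_ok s ε c T j (by omega))
  have mem' : ∀ j < k, ent s ε c' (Nat.nth (ent s ε c') j) := fun j hj =>
    Nat.nth_mem j (nth_ok s ε c' T j (by omega))
  have tr : ∀ q : ℤ × ℤ, c ≤ ε * q.1 → c' ≤ ε * (q + v).1 := fun q hq => by
    rw [Prod.fst_add, mul_add]; omega
  have dirs : ∀ j < k, (st s (Nat.nth (ent s ε c') j + 1)).dir
      = (st s (Nat.nth (ent s ε c) j + 1)).dir := fun j hj =>
    vec_inj ε hε _ _ (ent_pos s ε c' hε _ (mem' j hj)).2.2 (ent_pos s ε c hε _ (mem j hj)).2.2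
  intro j
  induction j with
  | zero =>
    intro hj
    refine ⟨hp 0 hj, dirs 0 hj, fun q hq => ?_⟩
    have a := (quiet s ε c 0 h0 (Nat.nth (ent s ε c) 0) fun t _ ht h => by
      rw [zero_add, Nat.nth_zero] at ht
      exact Nat.notMem_of_lt_sInf ht h).2 q hq
    have a' := (quiet s ε c' 0 h0' (Nat.nth (ent s ε c') 0) fun t _ ht h => by
      rw [zero_add, Nat.nth_zero] at ht
      exact Nat.notMem_of_lt_sInf ht h).2 (q + v) (tr q hq)
    rw [zero_add] at a a'
    rw [a, a']
    exact (hw _ (hc.trans (tr q hq))).trans (hw q hq).symm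
  | succ j ih =>
    intro hj
    have A := ih (by omega)
    refine ⟨hp _ hj, dirs _ hj, fun q hq => ?_⟩
    have lt := Nat.nth_lt_nth' (Nat.lt_succ_self j) (nth_ok s ε c T (j + 1) (by omega))
    have lt' := Nat.nth_lt_nth' (Nat.lt_succ_self j) (nth_ok s ε c' T (j + 1) (by omega))
    have gap : ∀ t, Nat.nth (ent s ε c) j < t → t < Nat.nth (ent s ε c) (j + 1) →
        ¬ ent s ε c t := fun t h1 h2 h => absurd (Nat.le_nth_of_lt_nth_succ h2 h) (by omega)
    have gap' : ∀ t, Nat.nth (ent s ε c') j < t → t < Nat.nth (ent s ε c') (j + 1) →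
        ¬ ent s ε c' t := fun t h1 h2 h => absurd (Nat.le_nth_of_lt_nth_succ h2 h) (by omega)
    have nb := (mem _ hj).1
    have nb' := (mem' _ hj).1
    rw [Nat.succ_eq_add_one] at lt lt'
    generalize Nat.nth (ent s ε c) (j + 1) = b at *
    generalize Nat.nth (ent s ε c') (j + 1) = b' at *
    generalize Nat.nth (ent s ε c) j = a at *
    generalize Nat.nth (ent s ε c') j = a' at *
    have ex : ∃ i, ¬ ins s ε c (a + 1 + i) := ⟨b - (a + 1), by
      rwa [show a + 1 + (b - (a + 1)) = b by omega]⟩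
    have i1 := Nat.find_spec ex
    have i2 : ∀ i < Nat.find ex, ins s ε c (a + 1 + i) := fun i hi =>
      not_not.1 (Nat.find_min ex hi)
    have i3 : Nat.find ex ≤ b - (a + 1) := Nat.find_min' ex (by
      rwa [show a + 1 + (b - (a + 1)) = b by omega])
    generalize Nat.find ex = i0 at *
    have R := A.run s i0 i2
    have i1' : ¬ ins s ε c' (a' + 1 + i0) := by
      unfold ins at i1 ⊢
      rw [R.1, Prod.fst_add, mul_add]
      omega
    have i3' : a' + 1 + i0 ≤ b' := by
      by_contra hlt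
      have R' := A.run s (b' - (a' + 1)) fun i hi => i2 i (by omega)
      have := tr _ (i2 (b' - (a' + 1)) (by omega))
      rw [← R'.1, show a' + 1 + (b' - (a' + 1)) = b' by omega] at this
      exact nb' this
    have z := (quiet s ε c _ i1 (b - (a + 1 + i0)) fun t h1 h2 => gap t (by omega) (by omega)).2 q hq
    have z' := (quiet s ε c' _ i1' (b' - (a' + 1 + i0))
      fun t h1 h2 => gap' t (by omega) (by omega)).2 (q + v) (tr q hq)
    rw [show a + 1 + i0 + (b - (a + 1 + i0)) = b by omega] at z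
    rw [show a' + 1 + i0 + (b' - (a' + 1 + i0)) = b' by omega] at z'
    rw [z, z']
    exact R.2.2 q hq

lemma count_pos (ε c : ℤ) (h0 : ¬ ins s ε c 0) (T : ℕ) (hT : ins s ε c T) :
    0 < Nat.count (ent s ε c) T := by
  by_contra h
  have h1 : Nat.count (ent s ε c) T = 0 := by omega
  rw [Nat.count_iff_forall_not] at h1
  have := (quiet s ε c 0 h0 T fun t _ ht => h1 t (by omega)).1
  rw [zero_add] at this
  exact this hT

lemma last_ins (ε c : ℤ) (T k : ℕ) (hT : ins s ε c T) (hk : Nat.count (ent s ε c) T = k + 1)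
    (t : ℕ) (h1 : Nat.nth (ent s ε c) k < t) (h2 : t ≤ T) : ins s ε c t := by
  by_contra h
  have := (quiet s ε c t h (T - t) fun u a b hu => by
    have c1 := Nat.count_strict_mono hu (show u < T by omega)
    have c2 := Nat.nth_le_nth' (show Nat.count (ent s ε c) u ≤ k by omega)
      (nth_ok s ε c T k (by omega))
    rw [Nat.nth_count hu] at c2
    omega).1
  rw [show t + (T - t) = T by omega] at this
  exact this hT

/-- two cuts with the same entry sequence give a highway -/
theorem cross (ε c c' : ℤ) (hε : ε = 1 ∨ ε = -1) (v : ℤ × ℤ) (hv : ε * v.1 = c' - c)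
    (hc : c < c') (h0 : ¬ ins s ε c 0) (hw : ∀ q : ℤ × ℤ, c ≤ ε * q.1 → s.black q = false)
    (T : ℕ) (hT : ins s ε c' T) (hk : Nat.count (ent s ε c) T = Nat.count (ent s ε c') T)
    (hp : ∀ j < Nat.count (ent s ε c) T, (st s (Nat.nth (ent s ε c') j + 1)).pos
      = (st s (Nat.nth (ent s ε c) j + 1)).pos + v) : Hw s := by
  have hT0 : ins s ε c T := hc.le.trans hT
  obtain ⟨k, hk0⟩ : ∃ k, Nat.count (ent s ε c) T = k + 1 :=
    ⟨_, (Nat.succ_pred_eq_of_pos (count_pos s ε c h0 T hT0)).symm⟩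
  have A := entries s ε c c' hε v hv hc.le h0 hw T _ le_rfl hk.le hp k (by omega)
  have L := last_ins s ε c T k hT0 hk0
  have L' := last_ins s ε c' T k hT (by omega)
  have m := Nat.nth_mem k (nth_ok s ε c T k (by omega))
  have m' := Nat.nth_mem k (nth_ok s ε c' T k (by omega))
  have b := Nat.nth_lt_of_lt_count (show k < Nat.count (ent s ε c) T by omega)
  have b' := Nat.nth_lt_of_lt_count (show k < Nat.count (ent s ε c') T by omega)
  generalize Nat.nth (ent s ε c) k = a at *
  generalize Nat.nth (ent s ε c') k = a' at *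
  have lt : a < a' := by
    by_contra h
    rcases (show a = a' ∨ a' < a by omega) with rfl | h
    · have := (ent_pos s ε c' hε _ m').2.1
      exact m.1 (by unfold ins; omega)
    · exact m.1 (hc.le.trans (L' a h b.le))
  exact forever s ε c v (by omega) (a + 1) (a' + 1) (by omega) A fun t h1 h2 =>
    L t (by omega) (by omega)

end Pool.Agent.Lib.MP_4da9c2_lc
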