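import Mathlib

namespace Pool.Agent.Lib.MP_4da9c2_lc

/-- colours of all cells (true = black), position of the ant, heading (0 N, 1 E, 2 S, 3 W) -/
structure State where
  black : ℤ × ℤ → Bool
  pos : ℤ × ℤ
  dir : Fin 4

/-- unit vector of a heading -/
def vec : Fin 4 → ℤ × ℤ := ![(0, 1), (1, 0), (0, -1), (-1, 0)]

/-- one step: turn left on black, right on white, flip the cell, move forward -/
def step (s : State) : State :=
  { black := Function.update s.black s.pos (!s.black s.pos)
    pos := s.pos + vec (if s.black s.pos then s.dir - 1 else s.dir + 1)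
    dir := if s.black s.pos then s.dir - 1 else s.dir + 1 }

end Pool.Agent.Lib.MP_4da9c2_lc
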