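import Pool.Agent.Lib.MP_4da9c2_lc.Defs

namespace Pool.Agent.Lib.MP_4da9c2_lc

open Finset

variable (s : State)

/-- state at time t -/
def st (t : ℕ) : State := step^[t] s

lemma st_succ (t : ℕ) : st s (t + 1) = step (st s t) := Function.iterate_succ_apply' _ _ _

/-- visits before time T of cell q with heading e and colour c -/
def N (T : ℕ) (q : ℤ × ℤ) (e : Fin 4) (c : Bool) : ℕ :=
  ∑ t ∈ range T, if (st s t).pos = q ∧ (st s t).dir = e ∧ (st s t).black (st s t).pos = c then 1 else 0

/-- arrivals up to time T at q with heading e -/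
def F (T : ℕ) (q : ℤ × ℤ) (e : Fin 4) : ℕ :=
  ∑ t ∈ range (T + 1), if (st s t).pos = q ∧ (st s t).dir = e then 1 else 0

/-- visits -/
def V (T : ℕ) (q : ℤ × ℤ) : ℕ := ∑ t ∈ range T, if (st s t).pos = q then 1 else 0

lemma F_in (T : ℕ) (q : ℤ × ℤ) (e : Fin 4) :
    N s T q e false + N s T q e true ≤ F s T q e ∧ F s T q e ≤ N s T q e false + N s T q e true + 1 := by
  have h : N s T q e false + N s T q e true
      = ∑ t ∈ range T, if (st s t).pos = q ∧ (st s t).dir = e then 1 else 0 := by
    unfold N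
    rw [← sum_add_distrib]
    refine sum_congr rfl fun t _ => ?_
    by_cases h1 : (st s t).pos = q <;> by_cases h2 : (st s t).dir = e <;>
      cases (st s t).black (st s t).pos <;> simp [h1, h2]
  rw [h, F, sum_range_succ]
  split_ifs <;> omega

lemma F_out (T : ℕ) (q : ℤ × ℤ) (e : Fin 4) :
    N s T q (e - 1) false + N s T q (e + 1) true ≤ F s T (q + vec e) e ∧
      F s T (q + vec e) e ≤ N s T q (e - 1) false + N s T q (e + 1) true + 1 := by
  have h : N s T q (e - 1) false + N s T q (e + 1) true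
      = ∑ t ∈ range T, if (st s (t + 1)).pos = q + vec e ∧ (st s (t + 1)).dir = e then 1 else 0 := by
    unfold N
    rw [← sum_add_distrib]
    refine sum_congr rfl fun t _ => ?_
    rw [st_succ]
    generalize st s t = u
    obtain ⟨bl, p, d⟩ := u
    simp only [step]
    rcases Bool.eq_false_or_eq_true (bl p) with hb | hb
    swap
    · have : (p + vec (d + 1) = q + vec e ∧ d + 1 = e) ↔ (p = q ∧ d = e - 1) := by
        constructor
        · rintro ⟨h1, h2⟩
          rw [h2] at h1
          exact ⟨add_right_cancel h1, by rw [← h2]; simp⟩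
        · rintro ⟨rfl, rfl⟩
          simp
      simp [this, hb]
    · have : (p + vec (d - 1) = q + vec e ∧ d - 1 = e) ↔ (p = q ∧ d = e + 1) := by
        constructor
        · rintro ⟨h1, h2⟩
          rw [h2] at h1
          exact ⟨add_right_cancel h1, by rw [← h2]; simp⟩
        · rintro ⟨rfl, rfl⟩
          simp
      simp [this, hb]
  rw [h, F, sum_range_succ']
  split_ifs <;> omega

lemma N_succ (T : ℕ) (q : ℤ × ℤ) (e : Fin 4) (c : Bool) :
    N s (T + 1) q e c = N s T q e c +
      if (st s T).pos = q ∧ (st s T).dir = e ∧ (st s T).black (st s T).pos = c then 1 else 0 :=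
  sum_range_succ _ _

lemma alt (T : ℕ) (q : ℤ × ℤ) :
    N s T q 0 false + N s T q 1 false + N s T q 2 false + N s T q 3 false
        + (if s.black q then 1 else 0)
      = N s T q 0 true + N s T q 1 true + N s T q 2 true + N s T q 3 true
        + (if (st s T).black q then 1 else 0) := by
  induction T with
  | zero => simp [N, st]
  | succ T ih =>
    simp only [N_succ]
    rw [st_succ]
    generalize st s T = u at *
    obtain ⟨bl, p, d⟩ := u
    simp only [step] at *
    by_cases hp : p = q
    · subst hp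
      simp only [Function.update_self, true_and]
      cases hb : bl p <;> fin_cases d <;> simp [hb] at ih ⊢ <;> omega
    · rw [Function.update_of_ne (Ne.symm hp)]
      simp only [hp, false_and, if_false, add_zero]
      exact ih

lemma V_eq (T : ℕ) (q : ℤ × ℤ) :
    V s T q = N s T q 0 false + N s T q 1 false + N s T q 2 false + N s T q 3 false
      + (N s T q 0 true + N s T q 1 true + N s T q 2 true + N s T q 3 true) := by
  unfold V N
  simp only [← sum_add_distrib]
  refine sum_congr rfl fun t _ => ?_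
  generalize st s t = u
  obtain ⟨bl, p, d⟩ := u
  by_cases hp : p = q
  · cases hb : bl p <;> fin_cases d <;> simp [hp] <;> simp [← hp, hb]
  · simp [hp]

lemma parity (t : ℕ) :
    ((st s t).pos.1 + (st s t).pos.2 + ((st s t).dir.val : ℤ)) % 2
      = (s.pos.1 + s.pos.2 + (s.dir.val : ℤ)) % 2 := by
  induction t with
  | zero => rfl
  | succ t ih =>
    rw [st_succ, ← ih]
    generalize st s t = u
    obtain ⟨bl, ⟨x, y⟩, d⟩ := u
    simp only [step]
    cases bl (x, y) <;> fin_cases d <;> simp [vec] <;> omega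

lemma F_zero (T : ℕ) (q : ℤ × ℤ) (e : Fin 4)
    (h : (q.1 + q.2 + (e.val : ℤ)) % 2 ≠ (s.pos.1 + s.pos.2 + (s.dir.val : ℤ)) % 2) :
    F s T q e = 0 := by
  unfold F
  refine sum_eq_zero fun t _ => ?_
  rw [if_neg]
  rintro ⟨rfl, rfl⟩
  exact h (parity s t)

/-- traffic on the edge between (x-1,y) and (x,y) -/
def hor (T : ℕ) (x y : ℤ) : ℕ := F s T (x, y) 1 + F s T (x - 1, y) 3

/-- traffic on the edge between (x,y-1) and (x,y) -/
def ver (T : ℕ) (x y : ℤ) : ℕ := F s T (x, y) 0 + F s T (x, y - 1) 2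

lemma cell (T : ℕ) (x y : ℤ) (W E S Nn : ℕ) (hW : W = hor s T x y) (hE : E = hor s T (x + 1) y)
    (hS : S = ver s T x y) (hN : Nn = ver s T x (y + 1)) :
    (E ≤ W + 2 * S + 2 ∧ E ≤ W + 2 * Nn + 2 ∧ W ≤ E + 2 * S + 2 ∧ W ≤ E + 2 * Nn + 2) ∧
    (Nn ≤ S + 2 * W + 2 ∧ Nn ≤ S + 2 * E + 2 ∧ S ≤ Nn + 2 * W + 2 ∧ S ≤ Nn + 2 * E + 2) ∧
    V s T (x, y) ≤ W + E ∧
    (W ≤ V s T (x, y) + 1 ∧ E ≤ V s T (x, y) + 1 ∧ S ≤ V s T (x, y) + 1 ∧ Nn ≤ V s T (x, y) + 1) := by
  have i0 := F_in s T (x, y) 0
  have i1 := F_in s T (x, y) 1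
  have i2 := F_in s T (x, y) 2
  have i3 := F_in s T (x, y) 3
  have o0 : N s T (x, y) 3 false + N s T (x, y) 1 true ≤ F s T (x, y + 1) 0 ∧
      F s T (x, y + 1) 0 ≤ N s T (x, y) 3 false + N s T (x, y) 1 true + 1 := by
    have := F_out s T (x, y) 0
    rw [show vec 0 = (0, 1) from rfl, Prod.mk_add_mk, add_zero] at this
    exact this
  have o1 : N s T (x, y) 0 false + N s T (x, y) 2 true ≤ F s T (x + 1, y) 1 ∧
      F s T (x + 1, y) 1 ≤ N s T (x, y) 0 false + N s T (x, y) 2 true + 1 := by
    simpa [vec] using F_out s T (x, y) 1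
  have o2 : N s T (x, y) 1 false + N s T (x, y) 3 true ≤ F s T (x, y - 1) 2 ∧
      F s T (x, y - 1) 2 ≤ N s T (x, y) 1 false + N s T (x, y) 3 true + 1 := by
    have := F_out s T (x, y) 2
    rw [show vec 2 = (0, -1) from rfl, Prod.mk_add_mk, add_zero, ← sub_eq_add_neg] at this
    exact this
  have o3 : N s T (x, y) 2 false + N s T (x, y) 0 true ≤ F s T (x - 1, y) 3 ∧
      F s T (x - 1, y) 3 ≤ N s T (x, y) 2 false + N s T (x, y) 0 true + 1 := by
    have := F_out s T (x, y) 3
    rw [show vec 3 = (-1, 0) from rfl, Prod.mk_add_mk, add_zero, ← sub_eq_add_neg] at this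
    exact this
  have ha := alt s T (x, y)
  have hv := V_eq s T (x, y)
  simp only [hor, ver, add_sub_cancel_right] at hW hE hS hN
  have a1 : (if s.black (x, y) then 1 else 0 : ℕ) ≤ 1 := by split_ifs <;> omega
  have a2 : (if (st s T).black (x, y) then 1 else 0 : ℕ) ≤ 1 := by split_ifs <;> omega
  generalize (if s.black (x, y) then 1 else 0 : ℕ) = b1 at *
  generalize (if (st s T).black (x, y) then 1 else 0 : ℕ) = b2 at *
  by_cases hp : (x + y) % 2 = (s.pos.1 + s.pos.2 + (s.dir.val : ℤ)) % 2
  · have z1 := F_zero s T (x, y) 1 (by simp; omega)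
    have z3 := F_zero s T (x, y) 3 (by simp; omega)
    have z0 := F_zero s T (x, y + 1) 0 (by simp; omega)
    have z2 := F_zero s T (x, y - 1) 2 (by simp; omega)
    omega
  · have z0 := F_zero s T (x, y) 0 (by simp; omega)
    have z2 := F_zero s T (x, y) 2 (by simp; omega)
    have z1 := F_zero s T (x + 1, y) 1 (by simp; omega)
    have z3 := F_zero s T (x - 1, y) 3 (by simp; omega)
    omega

lemma grow (h v : ℕ → ℕ → ℕ) (h0 : ∀ j, h 0 j ≤ 1) (v0 : ∀ i, v i 0 ≤ 1)
    (hs : ∀ i j, h (i + 1) j ≤ h i j + 2 * v i j + 2)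
    (vs : ∀ i j, v i (j + 1) ≤ v i j + 2 * h i j + 2) :
    ∀ n i j, i + j = n → h i j + 1 ≤ 2 * 3 ^ n ∧ v i j + 1 ≤ 2 * 3 ^ n := by
  intro n
  induction n with
  | zero =>
    intro i j hij
    obtain ⟨rfl, rfl⟩ : i = 0 ∧ j = 0 := by omega
    have := h0 0
    have := v0 0
    omega
  | succ n ih =>
    intro i j hij
    have hp : 1 ≤ 3 ^ n := Nat.one_le_pow _ _ (by norm_num)
    rw [pow_succ]
    constructor
    · rcases i with _ | i
      · have := h0 j
        omega
      · have := ih i j (by omega)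
        have := hs i j
        omega
    · rcases j with _ | j
      · have := v0 i
        omega
      · have := ih i j (by omega)
        have := vs i j
        omega

lemma grow2 (h v : ℕ → ℕ → ℕ) (h0 : ∀ j, h 0 j ≤ 1) (v0 : ∀ i, v i 0 ≤ 1)
    (hs : ∀ i j, h (i + 1) j ≤ h i j + 2 * v i j + 2)
    (vs : ∀ i j, v i (j + 1) ≤ v i j + 2 * h i j + 2) (i j : ℕ) :
    h i j + h (i + 1) j ≤ 8 * (3 ^ i * 3 ^ j) := by
  have a := (grow h v h0 v0 hs vs _ i j rfl).1
  have b := (grow h v h0 v0 hs vs _ (i + 1) j rfl).1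
  have e : 3 ^ (i + 1 + j) = 3 * 3 ^ (i + j) := by ring
  rw [← pow_add]
  omega

lemma geom (m : ℕ) : ∑ i ∈ range m, 3 ^ (min i (m - 1 - i)) + 1 ≤ 2 * 3 ^ (m / 2) := by
  induction m using Nat.strong_induction_on with
  | _ m ih =>
    rcases m with _ | _ | m
    · simp
    · simp
    · have := ih m (by omega)
      have e : (m + 1 + 1) / 2 = m / 2 + 1 := by omega
      rw [sum_range_succ, sum_range_succ', e, pow_succ]
      have e2 : ∑ i ∈ range m, 3 ^ (min (i + 1) (m + 1 + 1 - 1 - (i + 1)))
          = 3 * ∑ i ∈ range m, 3 ^ (min i (m - 1 - i)) := by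
        rw [mul_sum]
        refine sum_congr rfl fun i hi => ?_
        have := mem_range.1 hi
        have : min (i + 1) (m + 1 + 1 - 1 - (i + 1)) = min i (m - 1 - i) + 1 := by omega
        rw [this, pow_succ, mul_comm]
      rw [e2]
      simp
      omega

theorem escape (a b : ℤ) (m n T : ℕ)
    (H : ∀ t < T, a ≤ (step^[t] s).pos.1 ∧ (step^[t] s).pos.1 < a + m ∧
      b ≤ (step^[t] s).pos.2 ∧ (step^[t] s).pos.2 < b + n) :
    T ≤ 32 * 3 ^ (m / 2 + n / 2) := by
  have out : ∀ x y : ℤ, (x < a ∨ a + m ≤ x ∨ y < b ∨ b + n ≤ y) → V s T (x, y) = 0 := by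
    intro x y hxy
    refine sum_eq_zero fun t ht => ?_
    rw [if_neg]
    intro h
    have := H t (mem_range.1 ht)
    have h' : (step^[t] s).pos = (x, y) := h
    rw [h'] at this
    simp only at this
    omega
  have C := fun x y => cell s T x y _ _ _ _ rfl rfl rfl rfl
  have bW : ∀ y, hor s T a y ≤ 1 := fun y => by
    have h1 := (C (a - 1) y).2.2.2.2.1
    have h2 := out (a - 1) y (by omega)
    rw [sub_add_cancel] at h1
    omega
  have bE : ∀ y, hor s T (a + m) y ≤ 1 := fun y => by
    have h1 := (C (a + m) y).2.2.2.1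
    have h2 := out (a + m) y (by omega)
    omega
  have bS : ∀ x, ver s T x b ≤ 1 := fun x => by
    have h1 := (C x (b - 1)).2.2.2.2.2.2
    have h2 := out x (b - 1) (by omega)
    rw [sub_add_cancel] at h1
    omega
  have bN : ∀ x, ver s T x (b + n) ≤ 1 := fun x => by
    have h1 := (C x (b + n)).2.2.2.2.2.1
    have h2 := out x (b + n) (by omega)
    omega
  have SW : ∀ i j : ℕ, V s T (a + i, b + j) ≤ 8 * (3 ^ i * 3 ^ j) := fun i j => by
    have g := grow2 (fun i j => hor s T (a + i) (b + j)) (fun i j => ver s T (a + i) (b + j))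
      (fun j => by simpa using bW _) (fun i => by simpa using bS _)
      (fun i j => by
        have := (C (a + i) (b + j)).1.1
        simpa [add_assoc] using this)
      (fun i j => by
        have := (C (a + i) (b + j)).2.1.1
        simpa [add_assoc] using this) i j
    have := (C (a + i) (b + j)).2.2.1
    simp only [Nat.cast_add, Nat.cast_one, ← add_assoc] at g
    omega
  have SE : ∀ i j : ℕ, V s T (a + m - 1 - i, b + j) ≤ 8 * (3 ^ i * 3 ^ j) := fun i j => by
    have e : ∀ i : ℕ, a + m - ((i + 1 : ℕ) : ℤ) = a + m - 1 - i := fun i => by push_cast; ring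
    have e' : ∀ i : ℕ, a + m - 1 - (i : ℤ) + 1 = a + m - i := fun i => by ring
    have g := grow2 (fun i j => hor s T (a + m - i) (b + j))
      (fun i j => ver s T (a + m - 1 - i) (b + j))
      (fun j => by simpa using bE _) (fun i => by simpa using bS _)
      (fun i j => by
        have := (C (a + m - 1 - i) (b + j)).1.2.2.1
        rw [e'] at this
        simp only [e]
        exact this)
      (fun i j => by
        have := (C (a + m - 1 - i) (b + j)).2.1.2.1
        rw [e'] at this
        simpa [add_assoc] using this) i j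
    have := (C (a + m - 1 - i) (b + j)).2.2.1
    rw [e'] at this
    simp only [e] at g
    omega
  have NW : ∀ i j : ℕ, V s T (a + i, b + n - 1 - j) ≤ 8 * (3 ^ i * 3 ^ j) := fun i j => by
    have e : ∀ i : ℕ, b + n - ((i + 1 : ℕ) : ℤ) = b + n - 1 - i := fun i => by push_cast; ring
    have e' : ∀ i : ℕ, b + n - 1 - (i : ℤ) + 1 = b + n - i := fun i => by ring
    have g := grow2 (fun i j => hor s T (a + i) (b + n - 1 - j))
      (fun i j => ver s T (a + i) (b + n - j))
      (fun j => by simpa using bW _) (fun i => by simpa using bN _)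
      (fun i j => by
        have := (C (a + i) (b + n - 1 - j)).1.2.1
        rw [e'] at this
        simpa [add_assoc] using this)
      (fun i j => by
        have := (C (a + i) (b + n - 1 - j)).2.1.2.2.1
        rw [e'] at this
        simp only [e]
        exact this) i j
    have := (C (a + i) (b + n - 1 - j)).2.2.1
    simp only [Nat.cast_add, Nat.cast_one, ← add_assoc] at g
    omega
  have NE : ∀ i j : ℕ, V s T (a + m - 1 - i, b + n - 1 - j) ≤ 8 * (3 ^ i * 3 ^ j) := fun i j => by
    have e : ∀ (c : ℤ) (i : ℕ), c - ((i + 1 : ℕ) : ℤ) = c - 1 - i := fun c i => by push_cast; ring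
    have e' : ∀ (c : ℤ) (i : ℕ), c - 1 - (i : ℤ) + 1 = c - i := fun c i => by ring
    have g := grow2 (fun i j => hor s T (a + m - i) (b + n - 1 - j))
      (fun i j => ver s T (a + m - 1 - i) (b + n - j))
      (fun j => by simpa using bE _) (fun i => by simpa using bN _)
      (fun i j => by
        have := (C (a + m - 1 - i) (b + n - 1 - j)).1.2.2.2
        rw [e', e'] at this
        simp only [e]
        exact this)
      (fun i j => by
        have := (C (a + m - 1 - i) (b + n - 1 - j)).2.1.2.2.2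
        rw [e', e'] at this
        simp only [e]
        exact this) i j
    have := (C (a + m - 1 - i) (b + n - 1 - j)).2.2.1
    rw [e'] at this
    simp only [e] at g
    omega
  have all : ∀ i < m, ∀ j < n, V s T (a + i, b + j)
      ≤ 8 * (3 ^ (min i (m - 1 - i)) * 3 ^ (min j (n - 1 - j))) := by
    intro i hi j hj
    have ei : a + (i : ℤ) = a + m - 1 - ((m - 1 - i : ℕ) : ℤ) := by omega
    have ej : b + (j : ℤ) = b + n - 1 - ((n - 1 - j : ℕ) : ℤ) := by omega
    rcases le_total i (m - 1 - i) with h1 | h1 <;> rcases le_total j (n - 1 - j) with h2 | h2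
    · rw [min_eq_left h1, min_eq_left h2]; exact SW i j
    · rw [min_eq_left h1, min_eq_right h2, ej]; exact NW i _
    · rw [min_eq_right h1, min_eq_left h2, ei]; exact SE _ j
    · rw [min_eq_right h1, min_eq_right h2, ei, ej]; exact NE _ _
  have tot : T ≤ ∑ i ∈ range m, ∑ j ∈ range n, V s T (a + i, b + j) := by
    unfold V
    simp only [sum_comm (s := range n) (t := range T)]
    rw [sum_comm (s := range m) (t := range T)]
    calc T = ∑ t ∈ range T, 1 := by simp
      _ ≤ _ := by
        refine sum_le_sum fun t ht => ?_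
        obtain ⟨h1, h2, h3, h4⟩ := H t (mem_range.1 ht)
        have hi : ((step^[t] s).pos.1 - a).toNat ∈ range m := mem_range.2 (by omega)
        have hj : ((step^[t] s).pos.2 - b).toNat ∈ range n := mem_range.2 (by omega)
        refine le_trans ?_ (single_le_sum (f := fun i : ℕ => ∑ j ∈ range n,
          if (st s t).pos = (a + (i : ℤ), b + (j : ℤ)) then 1 else 0) (fun _ _ => Nat.zero_le _) hi)
        refine le_trans ?_ (single_le_sum (f := fun j : ℕ =>
          if (st s t).pos = (a + ((((step^[t] s).pos.1 - a).toNat : ℕ) : ℤ), b + (j : ℤ)) then 1 else 0)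
          (fun _ _ => Nat.zero_le _) hj)
        rw [if_pos]
        refine Prod.ext ?_ ?_
        · change (step^[t] s).pos.1 = a + ((((step^[t] s).pos.1 - a).toNat : ℕ) : ℤ)
          omega
        · change (step^[t] s).pos.2 = b + ((((step^[t] s).pos.2 - b).toNat : ℕ) : ℤ)
          omega
  have gm := geom m
  have gn := geom n
  calc T ≤ _ := tot
    _ ≤ ∑ i ∈ range m, ∑ j ∈ range n,
        8 * (3 ^ (min i (m - 1 - i)) * 3 ^ (min j (n - 1 - j))) :=
      sum_le_sum fun i hi => sum_le_sum fun j hj => all i (mem_range.1 hi) j (mem_range.1 hj)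
    _ = 8 * ((∑ i ∈ range m, 3 ^ (min i (m - 1 - i))) * ∑ j ∈ range n, 3 ^ (min j (n - 1 - j))) := by
      rw [sum_mul_sum, mul_sum]
      refine sum_congr rfl fun i _ => ?_
      rw [mul_sum]
    _ ≤ 8 * ((2 * 3 ^ (m / 2)) * (2 * 3 ^ (n / 2))) :=
      Nat.mul_le_mul_left _ (Nat.mul_le_mul (by omega) (by omega))
    _ = _ := by rw [pow_add]; ring

end Pool.Agent.Lib.MP_4da9c2_lc
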