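import Pool.Agent.Lib.MP_4da9c2_lc.Defs

/-! A second highway: simulation on a 64 by 64 bit board and the translation argument. -/

namespace Pool.Agent.Lib.MP_4da9c2_lc

/-- two states agree up to the translation `u` on the set `A` -/
def Rel (A : Set (ℤ × ℤ)) (u : ℤ × ℤ) (s s' : State) : Prop :=
  s'.pos = s.pos + u ∧ s'.dir = s.dir ∧ ∀ c ∈ A, s'.black (c + u) = s.black c

theorem Rel.colour {A : Set (ℤ × ℤ)} {u : ℤ × ℤ} {s s' : State} (h : Rel A u s s')
    (hp : s.pos ∈ A) : s'.black s'.pos = s.black s.pos := by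
  rw [h.1, h.2.2 _ hp]

theorem Rel.next {A : Set (ℤ × ℤ)} {u : ℤ × ℤ} {s s' : State} (h : Rel A u s s')
    (hp : s.pos ∈ A) : Rel A u (step s) (step s') := by
  have hc := h.colour hp
  refine ⟨?_, ?_, fun c hA => ?_⟩
  · simp only [step, hc, h.2.1]
    rw [h.1, add_right_comm]
  · simp only [step, hc, h.2.1]
  · simp only [step, hc]
    by_cases e : c = s.pos
    · rw [e, ← h.1]; simp
    · rw [Function.update_of_ne e, Function.update_of_ne, h.2.2 c hA]
      rw [h.1]; exact fun hh => e (add_right_cancel hh)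

theorem periodic {A : Set (ℤ × ℤ)} {v : ℤ × ℤ} {s : State} {T : ℕ} (hT : 0 < T)
    (hA : ∀ c ∈ A, c + v ∈ A) (hin : ∀ t < T, (step^[t] s).pos ∈ A)
    (hr : Rel A v s (step^[T] s)) (t : ℕ) :
    (step^[t] s).pos ∈ A ∧ Rel A v (step^[t] s) (step^[t + T] s) := by
  induction t using Nat.strong_induction_on with
  | _ t ih =>
    constructor
    · by_cases h : t < T
      · exact hin t h
      · obtain ⟨r, rfl⟩ : ∃ r, t = r + T := ⟨t - T, by omega⟩
        obtain ⟨a, b⟩ := ih r (by omega)
        rw [b.1]; exact hA _ a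
    · rcases t with _ | t
      · simpa using hr
      · obtain ⟨a, b⟩ := ih t (by omega)
        rw [show t + 1 + T = (t + T) + 1 by ring, Function.iterate_succ_apply',
          Function.iterate_succ_apply']
        exact b.next a

structure N where
  b : ℕ
  x : ℕ
  y : ℕ
  d : ℕ
  deriving DecidableEq

def bit (b : ℕ) (c : ℤ × ℤ) : Bool :=
  decide (0 ≤ c.1 ∧ c.1 < 64 ∧ 0 ≤ c.2 ∧ c.2 < 64) && b.testBit (c.1.toNat + 64 * c.2.toNat)

def ofN (s : N) : State := ⟨bit s.b, (s.x, s.y), Fin.ofNat 4 s.d⟩

def colN (s : N) : Bool := s.b.testBit (s.x + 64 * s.y)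

def mv (b x y : ℕ) : ℕ → N
  | 0 => ⟨b, x, y + 1, 0⟩
  | 1 => ⟨b, x + 1, y, 1⟩
  | 2 => ⟨b, x, y - 1, 2⟩
  | _ => ⟨b, x - 1, y, 3⟩

def stepN (s : N) : N :=
  mv (s.b ^^^ 2 ^ (s.x + 64 * s.y)) s.x s.y (bif colN s then (s.d + 3) % 4 else (s.d + 1) % 4)

def okN (m : ℕ) (s : N) : Bool :=
  Nat.ble 1 s.x && Nat.ble s.x 63 && Nat.ble 1 s.y && Nat.ble s.y 63 && Nat.ble s.d 3 &&
    m.testBit (s.x + 64 * s.y)

theorem bit_nat (b x y : ℕ) (hx : x < 64) (hy : y < 64) :
    bit b ((x : ℤ), (y : ℤ)) = b.testBit (x + 64 * y) := by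
  have : (0 : ℤ) ≤ x ∧ (x : ℤ) < 64 ∧ (0 : ℤ) ≤ y ∧ (y : ℤ) < 64 := by omega
  simp [bit, this]

theorem bit_xor (b x y : ℕ) (hx : x < 64) (hy : y < 64) :
    bit (b ^^^ 2 ^ (x + 64 * y)) =
      Function.update (bit b) ((x : ℤ), (y : ℤ)) (!bit b ((x : ℤ), (y : ℤ))) := by
  funext c
  by_cases e : c = ((x : ℤ), (y : ℤ))
  · rw [e, Function.update_self, bit_nat _ _ _ hx hy, bit_nat _ _ _ hx hy, Nat.testBit_xor,
      Nat.testBit_two_pow_self]
    simp
  · rw [Function.update_of_ne e]
    by_cases h : 0 ≤ c.1 ∧ c.1 < 64 ∧ 0 ≤ c.2 ∧ c.2 < 64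
    · have : x + 64 * y ≠ c.1.toNat + 64 * c.2.toNat := fun hh => e (Prod.ext (by
        dsimp only; omega) (by dsimp only; omega))
      simp [bit, Nat.testBit_xor, Nat.testBit_two_pow_of_ne this]
    · simp only [bit, decide_eq_false h, Bool.false_and]

theorem ok_iff {m : ℕ} {s : N} (h : okN m s = true) : 1 ≤ s.x ∧ s.x < 64 ∧ 1 ≤ s.y ∧ s.y < 64 ∧
    s.d < 4 ∧ m.testBit (s.x + 64 * s.y) = true := by
  simp only [okN, Bool.and_eq_true, Nat.ble_eq] at h
  refine ⟨?_, ?_, ?_, ?_, ?_, h.2⟩ <;> omega

theorem col_ofN {m : ℕ} {s : N} (h : okN m s = true) : (ofN s).black (ofN s).pos = colN s := by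
  obtain ⟨_, a, _, b, _⟩ := ok_iff h
  exact bit_nat _ _ _ a b

theorem step_ofN {m : ℕ} {s : N} (h : okN m s = true) : step (ofN s) = ofN (stepN s) := by
  have hc := col_ofN h
  obtain ⟨x1, x2, y1, y2, d4, -⟩ := ok_iff h
  obtain ⟨b, x, y, d⟩ := s
  dsimp only at x1 x2 y1 y2 d4
  have hb := bit_xor b x y x2 y2
  simp only [step, hc, stepN]
  simp only [ofN] at hc
  rw [hc] at hb
  have ex : ((x - 1 : ℕ) : ℤ) = x + -1 := by omega
  have ey : ((y - 1 : ℕ) : ℤ) = y + -1 := by omega
  interval_cases d <;> cases hcol : colN ⟨b, x, y, _⟩ <;> rw [hcol] at hb <;>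
    simp only [ofN, mv, cond_true, cond_false, Nat.reduceAdd, Nat.reduceMod, hb, ex, ey,
      Bool.false_eq_true, if_false, if_true, State.mk.injEq, true_and] <;>
    refine ⟨Prod.ext ?_ ?_, rfl⟩ <;> rfl

def run (m : ℕ) : ℕ → N → N → Bool
  | 0, s, t => decide (s = t)
  | n + 1, s, t => okN m s && run m n (stepN s) t

theorem run_spec {m : ℕ} : ∀ (n : ℕ) (s t : N), run m n s t = true →
    step^[n] (ofN s) = ofN t ∧ ∀ k < n, okN m (stepN^[k] s) = true ∧
      step^[k] (ofN s) = ofN (stepN^[k] s)
  | 0, s, t, h => by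
    simp only [run, decide_eq_true_eq] at h
    exact ⟨by rw [h]; rfl, fun k hk => absurd hk (Nat.not_lt_zero k)⟩
  | n + 1, s, t, h => by
    simp only [run, Bool.and_eq_true] at h
    obtain ⟨a, b⟩ := run_spec n _ t h.2
    refine ⟨by rw [Function.iterate_succ_apply, step_ofN h.1, a], fun k hk => ?_⟩
    rcases k with _ | k
    · exact ⟨h.1, rfl⟩
    · rw [Function.iterate_succ_apply, Function.iterate_succ_apply, step_ofN h.1]
      exact b k (by omega)

def mask : ℕ := 0x7ffefffff0000000fffffffff0000001fffbfffff0000003fffffffff0000007ffeffffff000000ffffffffff000001fffbffffff000003ffffffffff000003ffefffffff000003ffffffffff000003ffbfffffff000001ffffffffff000007fefffffffe000007ffffffffff000003fbfffffffb000007ffffffffff000007efffffffef00000fffffffffff00001f9fffffffbf00001fffffffffff00000e7ffffffeff00003fffffffffff000039fefffffbff00000fffffffffff000007fbffffefff0000007fffffffff0000006fffffbfff0000007fffffffff0000003ffffeffff0000003fffffffff0000007ffffbffff0000007fffffffff0000001fffefffff0000001bffffffff00000007ffbfffff0000000fffffffff0000000ffeffffff0000000fffffffff0000003ffbffffff0000003fffffffff0000001fefffffff0000001ff3ffffff0000001f9fffffff0000001fcfffffff0000007e7fffffff0000007f3ffffffe00000039fffffffc00000000fffffff800000000ee7ffff00000000003ffffe00000000001ffffc00000000001ffff800000000001ffff000000000001fffe000000000000fffc000000000001fff8000000000001ffe00000000000003fe00000000000003f800000000000000000000000000000000000000000000000000000000000000000000000000000000000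

def s0 : N := ⟨0x16000000000000001d30000000000000064980000000000011124000000000003988e00000000000244fa000000000002600000000000000511f800000000000587d0000000000000602000000000000e1840000000000009864000000000000860e000000000000618e00000000000118040000000000008604000000000000780e000000000000040e000000000000040580000000000000124000000000000198e00000000000014fa00000000000012000000000000002bf8000000000000041000000000000003930000000000000024980000000000075124000000000001988e00000000000d44fa000000000022600000000000003911f800000000000187d0000000000014602000000000001618580000000000118724000000000038618e00000000002604fa000000000019d200000000000000bbf8000000000000641600000000000003c90000000000000063800000000000013e80000000000001800000000000000086c000000000000059200000000000011c70000000000001cfc000000000000028000000000000001f800000000000000000000000000000000000000000000000000000000000000000000000000000000000, 40, 56, 0⟩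

def s2 : N := ⟨0x1580000000000000374c00000000000011926000000000000c449000000000002e623800000000000913e8000000000059800000000000007447e00000000000161f400000000000018080000000000038e1000000000000a61900000000000161838000000000011863800000000000460100000000000221810000000000039e0380000000000079038000000000000501600000000000020490000000000002663800000000000753e80000000000024800000000000002afe000000000000510400000000000049e4c000000000000e0926000000000019d449000000000004662380000000000b513e800000000008980000000000000e447e00000000000061f400000000001d18080000000000158e1600000000000c61c900000000000e1863800000000009813e80000000004674800000000000792efe000000000030990580000000000061f2400000000000ce18e00000000000014fa0000000000000e000000000000001a1b00000000000009648000000000001c71c000000000000f3f40000000000007a00000000000000d7e00000000000001ba000000000000030000000000000000000000000000000000000000000000000000000000000000000000000000000000000, 38, 58, 0⟩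

theorem run_ok : run mask 1236 s0 s2 = true := by decide +kernel

theorem differ : colN (stepN^[1] s0) ≠ colN (stepN^[105] s0) := by decide +kernel

theorem table : ∀ x < 64, ∀ y < 64, mask.testBit (x + 64 * y) = true →
    if 2 ≤ x ∧ y + 2 < 64 then mask.testBit (x - 2 + 64 * (y + 2)) = true ∧
      s2.b.testBit (x - 2 + 64 * (y + 2)) = s0.b.testBit (x + 64 * y)
    else s0.b.testBit (x + 64 * y) = false := by decide +kernel

/-- the cells that matter -/
def area : Set (ℤ × ℤ) := {c | bit mask c = true ∨ c.1 < 0 ∨ 64 ≤ c.2}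

theorem area_spec (c : ℤ × ℤ) (hc : c ∈ area) :
    c + (-2, 2) ∈ area ∧ bit s2.b (c + (-2, 2)) = bit s0.b c := by
  obtain ⟨p, q⟩ := c
  have out : ∀ (b : ℕ) (p q : ℤ), p < 0 ∨ 64 ≤ q → bit b (p, q) = false := by
    intro b p q h
    have : ¬ (0 ≤ p ∧ p < 64 ∧ 0 ≤ q ∧ q < 64) := by omega
    simp only [bit, decide_eq_false this, Bool.false_and]
  rw [Prod.mk_add_mk]
  by_cases h : p < 0 ∨ 64 ≤ q
  · have h' : p + -2 < 0 ∨ 64 ≤ q + 2 := by omega
    exact ⟨Or.inr h', by rw [out _ _ _ h, out _ _ _ h']⟩
  · have h1 : bit mask (p, q) = true := hc.resolve_right h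
    have h2 : 0 ≤ p ∧ p < 64 ∧ 0 ≤ q ∧ q < 64 := by
      simp only [bit, Bool.and_eq_true, decide_eq_true_eq] at h1
      exact h1.1
    obtain ⟨x, rfl⟩ := Int.eq_ofNat_of_zero_le h2.1
    obtain ⟨y, rfl⟩ := Int.eq_ofNat_of_zero_le h2.2.2.1
    have hx : x < 64 := by omega
    have hy : y < 64 := by omega
    rw [bit_nat _ _ _ hx hy] at h1
    have ht := table x hx y hy h1
    rw [bit_nat _ _ _ hx hy]
    split_ifs at ht with h3
    · have e1 : (x : ℤ) + -2 = ((x - 2 : ℕ) : ℤ) := by omega
      have e2 : (y : ℤ) + 2 = ((y + 2 : ℕ) : ℤ) := by omega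
      rw [e1, e2]
      refine ⟨Or.inl ?_, ?_⟩ <;> rw [bit_nat _ _ _ (by omega) h3.2]
      · exact ht.1
      · exact ht.2
    · have h' : (x : ℤ) + -2 < 0 ∨ 64 ≤ (y : ℤ) + 2 := by omega
      exact ⟨Or.inr h', by rw [out _ _ _ h', ht]⟩

theorem second (t : ℕ) : (step^[t] (ofN s0)).pos ∈ area ∧
    Rel area (-2, 2) (step^[t] (ofN s0)) (step^[t + 1236] (ofN s0)) := by
  obtain ⟨a, b⟩ := run_spec _ _ _ run_ok
  refine periodic (by norm_num) (fun c hc => (area_spec c hc).1) (fun k hk => ?_) ?_ t
  · obtain ⟨h1, h2⟩ := b k hk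
    obtain ⟨_, x2, _, y2, _, hm⟩ := ok_iff h1
    rw [h2]
    exact Or.inl ((bit_nat _ _ _ x2 y2).trans hm)
  · rw [a]
    exact ⟨by decide +kernel, rfl, fun c hc => (area_spec c hc).2⟩

theorem finite_s0 : {q | (ofN s0).black q = true}.Finite := by
  refine (Set.finite_Icc ((0, 0) : ℤ × ℤ) (63, 63)).subset fun c hc => ?_
  have h : bit s0.b c = true := hc
  simp only [bit, Bool.and_eq_true, decide_eq_true_eq] at h
  exact ⟨⟨h.1.1, h.1.2.2.1⟩, by dsimp only; omega, by dsimp only; omega⟩

theorem not_104 : ¬ ∃ t₀ : ℕ, ∀ t ≥ t₀,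
    (step^[t + 104] (ofN s0)).black (step^[t + 104] (ofN s0)).pos =
      (step^[t] (ofN s0)).black (step^[t] (ofN s0)).pos := by
  rintro ⟨t₀, h⟩
  have per : ∀ k r : ℕ, (step^[r + 1236 * k] (ofN s0)).black (step^[r + 1236 * k] (ofN s0)).pos =
      (step^[r] (ofN s0)).black (step^[r] (ofN s0)).pos := by
    intro k r
    induction k with
    | zero => rfl
    | succ k ih =>
      obtain ⟨a, b⟩ := second (r + 1236 * k)
      rw [show r + 1236 * (k + 1) = r + 1236 * k + 1236 by ring, b.colour a, ih]
  have h1 := h (1 + 1236 * t₀) (by omega)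
  rw [show 1 + 1236 * t₀ + 104 = 105 + 1236 * t₀ by ring, per, per] at h1
  obtain ⟨-, b⟩ := run_spec _ _ _ run_ok
  obtain ⟨a1, a2⟩ := b 1 (by norm_num)
  obtain ⟨b1, b2⟩ := b 105 (by norm_num)
  rw [a2, b2, col_ofN a1, col_ofN b1] at h1
  exact differ h1.symm

end Pool.Agent.Lib.MP_4da9c2_lc
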